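import Pool.Agent.H52.KP.Targets

set_option autoImplicit false
set_option linter.unusedVariables false
set_option linter.unusedSectionVars false

/-!
Module LIFT: the second difference of the volume functional in dimension `d + 4` and the functional
in dimension `d`.
-/

open MeasureTheory Metric Set Topology Filter
open scoped RealInnerProductSpace

namespace Pool.Agent.H59.KPO

open Pool.Agent.H52.KP Pool.Agent.H65k

section gen

variable {n : ℕ} {V : Type*} [NormedAddCommGroup V] [InnerProductSpace ℝ V]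

lemma lift_cnt_le (ρ : Fin n → ℝ) (s : ℝ) (c : Fin n → V) (y : V) : cnt ρ s c y ≤ n := by
  unfold cnt
  exact (Finset.card_filter_le _ _).trans (by simp)

lemma lift_cnt_mono (ρ : Fin n → ℝ) {s t : ℝ} (h : s ≤ t) (c : Fin n → V) (y : V) :
    cnt ρ s c y ≤ cnt ρ t c y := by
  unfold cnt
  refine Finset.card_le_card fun l hl => ?_
  simp only [Finset.mem_filter, Finset.mem_univ, true_and] at hl ⊢
  exact hl.trans h

lemma lift_cnt_zero (ρ : Fin n → ℝ) (s : ℝ) (c : Fin n → V) (y : V)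
    (h : ∀ l, s < pw ρ l (c, y)) : cnt ρ s c y = 0 := by
  unfold cnt
  rw [Finset.card_eq_zero, Finset.filter_eq_empty_iff]
  intro l _ hl
  exact absurd (h l) (not_lt.2 hl)

lemma lift_M_mono {M : ℝ → ℝ} (hM : GoodM M) : Monotone M :=
  monotone_of_deriv_nonneg (hM.1.differentiable (by norm_num)) hM.2.2

variable [FiniteDimensional ℝ V] [MeasurableSpace V] [BorelSpace V]

lemma lift_meas (M : ℝ → ℝ) (hM : Continuous M) (ρ : Fin n → ℝ) (s : ℝ) (c : Fin n → V) :
    Measurable fun y : V => M (cnt ρ s c y) - M 0 := by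
  have h1 : Measurable fun y : V => ((cnt ρ s c y : ℕ) : ℝ) := by
    have h2 : (fun y : V => ((cnt ρ s c y : ℕ) : ℝ)) =
        fun y => ∑ l, if pw ρ l (c, y) ≤ s then (1 : ℝ) else 0 := by
      funext y
      unfold cnt
      rw [Finset.card_filter]
      push_cast
      rfl
    rw [h2]
    refine Finset.measurable_sum _ fun l _ => ?_
    refine Measurable.ite ?_ measurable_const measurable_const
    refine measurableSet_le ?_ measurable_const
    unfold pw
    exact (by fun_prop : Continuous fun y : V => ‖y - c l‖ ^ 2 - ρ l ^ 2).measurable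
  exact (hM.measurable.comp h1).sub measurable_const

lemma lift_int (M : ℝ → ℝ) (hM : Continuous M) (ρ : Fin n → ℝ) (s : ℝ) (c : Fin n → V) :
    Integrable fun y : V => M (cnt ρ s c y) - M 0 := by
  set R : ℝ := ∑ l, (‖c l‖ + |ρ l|) + |s| + 1 with hR
  have hsup : Function.support (fun y : V => M (cnt ρ s c y) - M 0) ⊆ closedBall (0 : V) R := by
    intro y hy
    by_contra hyR
    apply hy
    have hy2 : R < ‖y‖ := by simpa using hyR
    have h0 : cnt ρ s c y = 0 := by
      refine lift_cnt_zero ρ s c y fun l => ?_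
      have h1 : ‖c l‖ + |ρ l| ≤ ∑ l, (‖c l‖ + |ρ l|) :=
        Finset.single_le_sum (f := fun l => ‖c l‖ + |ρ l|) (fun _ _ => by positivity)
          (Finset.mem_univ l)
      have h2 : ‖y‖ - ‖c l‖ ≤ ‖y - c l‖ := norm_sub_norm_le _ _
      have h3 : |ρ l| + |s| + 1 ≤ ‖y - c l‖ := by linarith
      have h4 := abs_nonneg (ρ l)
      have h5 := abs_nonneg s
      have h6 := le_abs_self s
      have h7 : ρ l ^ 2 = |ρ l| ^ 2 := (sq_abs _).symm
      show s < ‖y - c l‖ ^ 2 - ρ l ^ 2
      rw [h7]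
      nlinarith
    show M (cnt ρ s c y) - M 0 = 0
    rw [h0]
    simp
  rw [← integrableOn_iff_integrable_of_support_subset hsup]
  refine Measure.integrableOn_of_bounded (M := ∑ j ∈ Finset.range (n + 1), |M j - M 0|)
    measure_closedBall_lt_top.ne (lift_meas M hM ρ s c).aestronglyMeasurable ?_
  refine Eventually.of_forall fun y => ?_
  rw [Real.norm_eq_abs]
  exact Finset.single_le_sum (f := fun j : ℕ => |M j - M 0|) (fun _ _ => abs_nonneg _)
    (Finset.mem_range.2 (Nat.lt_succ_of_le (lift_cnt_le ρ s c y)))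

end gen

/-! ### one-dimensional integrals -/

lemma lift_intF {F : ℝ → ℝ} (hF : Monotone F) (hF0 : ∀ t, 0 ≤ F t) {T0 : ℝ}
    (hT : ∀ t < T0, F t = 0) (s : ℝ) : Integrable fun t => max (s - t) 0 * F t := by
  have hsup : Function.support (fun t => max (s - t) 0 * F t) ⊆ Icc T0 s := by
    intro t ht
    constructor
    · by_contra h
      apply ht
      show max (s - t) 0 * F t = 0
      rw [hT t (not_le.1 h), mul_zero]
    · by_contra h
      apply ht
      show max (s - t) 0 * F t = 0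
      rw [max_eq_right (by linarith [not_le.1 h]), zero_mul]
  rw [← integrableOn_iff_integrable_of_support_subset hsup]
  refine Measure.integrableOn_of_bounded (M := (s - T0) * F s) measure_Icc_lt_top.ne
    (((by fun_prop : Continuous fun t : ℝ => max (s - t) 0).measurable.mul
      hF.measurable).aestronglyMeasurable) ?_
  refine (ae_restrict_iff' measurableSet_Icc).2 (Eventually.of_forall fun t ht => ?_)
  rw [Real.norm_eq_abs, abs_of_nonneg (mul_nonneg (le_max_right _ _) (hF0 t))]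
  refine mul_le_mul ?_ (hF ht.2) (hF0 t) (by linarith [ht.1, ht.2])
  exact max_le (by linarith [ht.1]) (by linarith [ht.1, ht.2])

lemma lift_shift (F : ℝ → ℝ) (s : ℝ) :
    ∫ u in Ioi (0 : ℝ), u * F (s - u) = ∫ t, max (s - t) 0 * F t := by
  rw [← integral_sub_left_eq_self (fun t => max (s - t) 0 * F t) volume s,
    ← integral_indicator measurableSet_Ioi]
  refine integral_congr_ae (Eventually.of_forall fun u => ?_)
  simp only [sub_sub_cancel]
  by_cases hu : u ∈ Ioi (0 : ℝ)
  · rw [indicator_of_mem hu, max_eq_left (le_of_lt hu)]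
  · rw [indicator_of_notMem hu, max_eq_right (not_lt.1 hu), zero_mul]

/-- the tent function -/
noncomputable def tent (s ε t : ℝ) : ℝ :=
  max (s + 2 * ε - t) 0 - 2 * max (s + ε - t) 0 + max (s - t) 0

lemma tent_nonneg {s ε : ℝ} (hε : 0 < ε) (t : ℝ) : 0 ≤ tent s ε t := by
  unfold tent
  rcases max_cases (s + 2 * ε - t) 0 with ⟨h1, h1'⟩ | ⟨h1, h1'⟩ <;>
  rcases max_cases (s + ε - t) 0 with ⟨h2, h2'⟩ | ⟨h2, h2'⟩ <;>
  rcases max_cases (s - t) 0 with ⟨h3, h3'⟩ | ⟨h3, h3'⟩ <;> rw [h1, h2, h3] <;> linarith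

lemma tent_zero {s ε t : ℝ} (hε : 0 < ε) (h : t < s ∨ s + 2 * ε < t) : tent s ε t = 0 := by
  unfold tent
  rcases h with h | h
  · rw [max_eq_left (by linarith), max_eq_left (by linarith), max_eq_left (by linarith)]
    ring
  · rw [max_eq_right (by linarith), max_eq_right (by linarith), max_eq_right (by linarith)]
    ring

lemma tent_integral {s ε : ℝ} (hε : 0 < ε) : ∫ t, tent s ε t = ε ^ 2 := by
  have hc : Continuous (tent s ε) := by
    unfold tent
    fun_prop
  have h1 : ∫ t, tent s ε t = ∫ t in s..(s + 2 * ε), tent s ε t := by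
    rw [intervalIntegral.integral_of_le (by linarith), ← integral_Icc_eq_integral_Ioc]
    refine (setIntegral_eq_integral_of_forall_compl_eq_zero fun t ht => ?_).symm
    refine tent_zero hε ?_
    by_contra h
    push Not at h
    exact ht ⟨h.1, h.2⟩
  rw [h1, ← intervalIntegral.integral_add_adjacent_intervals (b := s + ε)
    (hc.intervalIntegrable _ _) (hc.intervalIntegrable _ _)]
  have h2 : ∫ t in s..(s + ε), tent s ε t = ∫ t in s..(s + ε), (t - s) := by
    refine intervalIntegral.integral_congr fun t ht => ?_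
    rw [uIcc_of_le (by linarith)] at ht
    unfold tent
    rw [max_eq_left (by linarith [ht.1, ht.2]), max_eq_left (by linarith [ht.1, ht.2]),
      max_eq_right (by linarith [ht.1, ht.2])]
    ring
  have h3 : ∫ t in (s + ε)..(s + 2 * ε), tent s ε t =
      ∫ t in (s + ε)..(s + 2 * ε), (s + 2 * ε - t) := by
    refine intervalIntegral.integral_congr fun t ht => ?_
    rw [uIcc_of_le (by linarith)] at ht
    unfold tent
    rw [max_eq_left (by linarith [ht.1, ht.2]), max_eq_right (by linarith [ht.1, ht.2]),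
      max_eq_right (by linarith [ht.1, ht.2])]
    ring
  rw [h2, h3, intervalIntegral.integral_sub (by simp) (by simp),
    intervalIntegral.integral_sub (by simp) (by simp)]
  simp only [integral_id, intervalIntegral.integral_const, smul_eq_mul]
  ring

lemma tent_integrable {s ε : ℝ} (hε : 0 < ε) : Integrable (tent s ε) := by
  have hc : Continuous (tent s ε) := by
    unfold tent
    fun_prop
  refine hc.integrable_of_hasCompactSupport ?_
  refine HasCompactSupport.intro (isCompact_Icc (a := s) (b := s + 2 * ε)) fun t ht => ?_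
  refine tent_zero hε ?_
  by_contra h
  push Not at h
  exact ht ⟨h.1, h.2⟩

lemma lift_tent {F : ℝ → ℝ} (hF : Monotone F) (hF0 : ∀ t, 0 ≤ F t) {T0 : ℝ}
    (hT : ∀ t < T0, F t = 0) {s ε : ℝ} (hε : 0 < ε) :
    ε ^ 2 * F s ≤ (∫ u in Ioi (0 : ℝ), u * F (s + 2 * ε - u)) -
        2 * (∫ u in Ioi (0 : ℝ), u * F (s + ε - u)) + ∫ u in Ioi (0 : ℝ), u * F (s - u) ∧
    (∫ u in Ioi (0 : ℝ), u * F (s + 2 * ε - u)) -
        2 * (∫ u in Ioi (0 : ℝ), u * F (s + ε - u)) + (∫ u in Ioi (0 : ℝ), u * F (s - u))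
      ≤ ε ^ 2 * F (s + 2 * ε) := by
  have i1 := lift_intF hF hF0 hT (s + 2 * ε)
  have i2 := lift_intF hF hF0 hT (s + ε)
  have i3 := lift_intF hF hF0 hT s
  have e : (∫ u in Ioi (0 : ℝ), u * F (s + 2 * ε - u)) -
        2 * (∫ u in Ioi (0 : ℝ), u * F (s + ε - u)) + (∫ u in Ioi (0 : ℝ), u * F (s - u))
      = ∫ t, tent s ε t * F t := by
    rw [lift_shift F (s + 2 * ε), lift_shift F (s + ε), lift_shift F s, ← integral_const_mul,
      ← integral_sub i1 (i2.const_mul 2)]
    refine (integral_add (i1.sub (i2.const_mul 2)) i3).symm.trans ?_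
    refine integral_congr_ae (Eventually.of_forall fun t => ?_)
    simp only [tent, Pi.sub_apply]
    ring
  have hi : Integrable fun t => tent s ε t * F t := by
    refine ((i1.sub (i2.const_mul 2)).add i3).congr (Eventually.of_forall fun t => ?_)
    simp only [Pi.add_apply, Pi.sub_apply, tent]
    ring
  rw [e]
  have hb : ∀ t, tent s ε t * F s ≤ tent s ε t * F t ∧ tent s ε t * F t ≤
      tent s ε t * F (s + 2 * ε) := by
    intro t
    by_cases h : t < s ∨ s + 2 * ε < t
    · rw [tent_zero hε h]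
      simp
    · push Not at h
      exact ⟨mul_le_mul_of_nonneg_left (hF h.1) (tent_nonneg hε t),
        mul_le_mul_of_nonneg_left (hF h.2) (tent_nonneg hε t)⟩
  constructor
  · rw [← tent_integral hε (s := s), ← integral_mul_const]
    exact integral_mono ((tent_integrable hε).mul_const _) hi fun t => (hb t).1
  · rw [← tent_integral hε (s := s), ← integral_mul_const]
    exact integral_mono hi ((tent_integrable hε).mul_const _) fun t => (hb t).2

/-- volume of the unit ball of `ℝ⁴`. -/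
noncomputable def v4 : ℝ := (volume : Measure (Eu 4)).real (ball 0 1)

lemma v4_pos : 0 < v4 := by
  unfold v4
  exact ENNReal.toReal_pos (measure_ball_pos _ _ one_pos).ne' measure_ball_lt_top.ne

lemma lift_radial (F : ℝ → ℝ) (s : ℝ) :
    ∫ w : Eu 4, F (s - ‖w‖ ^ 2) = 2 * v4 * ∫ u in Ioi (0 : ℝ), u * F (s - u) := by
  have h := integral_fun_norm_addHaar (volume : Measure (Eu 4)) (fun r => F (s - r ^ 2))
  rw [h]
  have h2 : Module.finrank ℝ (Eu 4) = 4 := by simp
  rw [h2]
  have h3 := integral_comp_rpow_Ioi_of_pos (g := fun y => y * F (s - y)) (p := 2) (by norm_num)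
  have h4 : ∫ x in Ioi (0 : ℝ), (2 * x ^ ((2 : ℝ) - 1)) • (x ^ (2 : ℝ) * F (s - x ^ (2 : ℝ))) =
      ∫ x in Ioi (0 : ℝ), 2 * (x ^ 3 * F (s - x ^ 2)) := by
    refine setIntegral_congr_fun measurableSet_Ioi fun x hx => ?_
    simp only [smul_eq_mul]
    rw [show (2 : ℝ) - 1 = 1 by norm_num, Real.rpow_one, Real.rpow_two]
    ring
  rw [h4, integral_const_mul] at h3
  simp only [smul_eq_mul, nsmul_eq_mul, Nat.add_one_sub_one]
  rw [← h3]
  unfold v4
  push_cast
  ring

lemma lift_pw {n d : ℕ} (ρ : Fin n → ℝ) (i : Fin n) (p : Fin n → Eu d) (x : Eu d) (w : Eu 4) :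
    pw ρ i ((fun i => (WithLp.toLp 2 (p i, 0) : WithLp 2 (Eu d × Eu 4))), WithLp.toLp 2 (x, w)) =
      pw ρ i (p, x) + ‖w‖ ^ 2 := by
  have h : WithLp.toLp 2 (x, w) - WithLp.toLp 2 ((p i, 0) : Eu d × Eu 4) =
      WithLp.toLp 2 ((x - p i, w) : Eu d × Eu 4) := by
    rw [← WithLp.toLp_sub]
    simp
  simp only [pw]
  rw [h, WithLp.prod_norm_sq_eq_of_L2]
  simp only [WithLp.toLp_fst, WithLp.toLp_snd]
  ring

lemma lift_cnt {n d : ℕ} (ρ : Fin n → ℝ) (s : ℝ) (p : Fin n → Eu d) (x : Eu d) (w : Eu 4) :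
    cnt ρ s (fun i => (WithLp.toLp 2 (p i, 0) : WithLp 2 (Eu d × Eu 4))) (WithLp.toLp 2 (x, w)) =
      cnt ρ (s - ‖w‖ ^ 2) p x := by
  unfold cnt
  congr 1
  refine Finset.filter_congr fun l _ => ?_
  rw [lift_pw, le_sub_iff_add_le]

lemma lift_fubini {n d : ℕ} (M : ℝ → ℝ) (hM : Continuous M) (ρ : Fin n → ℝ) (s : ℝ)
    (p : Fin n → Eu d) :
    U M ρ s (fun i => (WithLp.toLp 2 (p i, 0) : WithLp 2 (Eu d × Eu 4))) =
      ∫ x : Eu d, ∫ w : Eu 4, (M (cnt ρ (s - ‖w‖ ^ 2) p x) - M 0) ∧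
    Integrable fun x : Eu d => ∫ w : Eu 4, (M (cnt ρ (s - ‖w‖ ^ 2) p x) - M 0) := by
  set f : WithLp 2 (Eu d × Eu 4) → ℝ := fun y => M (cnt ρ s
    (fun i => (WithLp.toLp 2 (p i, 0) : WithLp 2 (Eu d × Eu 4))) y) - M 0 with hf
  have hfint : Integrable f volume := lift_int M hM ρ s _
  have hmp := (WithLp.volume_preserving_symm_measurableEquiv_toLp_prod (Eu d) (Eu 4)).symm
  have h2 : ∫ z : Eu d × Eu 4, f (WithLp.toLp 2 z) = ∫ y, f y := hmp.integral_comp' f
  have h3 : Integrable (fun z : Eu d × Eu 4 => f (WithLp.toLp 2 z))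
      (volume : Measure (Eu d × Eu 4)) :=
    (hmp.integrable_comp_emb (MeasurableEquiv.measurableEmbedding _)).2 hfint
  have h4 : ∀ (x : Eu d) (w : Eu 4), f (WithLp.toLp 2 (x, w)) =
      M (cnt ρ (s - ‖w‖ ^ 2) p x) - M 0 := by
    intro x w
    simp only [hf, lift_cnt]
  rw [show (volume : Measure (Eu d × Eu 4)) = (volume : Measure (Eu d)).prod volume from rfl]
    at h2 h3
  constructor
  · show ∫ y, f y = _
    rw [← h2, integral_prod _ h3]
    simp only [h4]
  · have := h3.integral_prod_left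
    simpa only [h4] using this

theorem lift : T_LIFT := by
  refine ⟨2 * v4, by linarith [v4_pos], fun d n M hM ρ p s ε hε => ?_⟩
  have hMc : Continuous M := hM.1.continuous
  have hMm := lift_M_mono hM
  obtain ⟨a1, a2⟩ := lift_fubini M hMc ρ (s + 2 * ε) p
  obtain ⟨b1, b2⟩ := lift_fubini M hMc ρ (s + ε) p
  obtain ⟨c1, c2⟩ := lift_fubini M hMc ρ s p
  have hD : D2U M ρ s ε (fun i => (WithLp.toLp 2 (p i, 0) : WithLp 2 (Eu d × Eu 4))) =
      ∫ x : Eu d, ((∫ w : Eu 4, (M (cnt ρ (s + 2 * ε - ‖w‖ ^ 2) p x) - M 0)) -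
        2 * (∫ w : Eu 4, (M (cnt ρ (s + ε - ‖w‖ ^ 2) p x) - M 0)) +
        ∫ w : Eu 4, (M (cnt ρ (s - ‖w‖ ^ 2) p x) - M 0)) := by
    unfold D2U
    rw [a1, b1, c1, ← integral_const_mul, ← integral_sub a2 (b2.const_mul 2)]
    exact (integral_add (a2.sub (b2.const_mul 2)) c2).symm
  have hDi : Integrable fun x : Eu d =>
      ((∫ w : Eu 4, (M (cnt ρ (s + 2 * ε - ‖w‖ ^ 2) p x) - M 0)) -
        2 * (∫ w : Eu 4, (M (cnt ρ (s + ε - ‖w‖ ^ 2) p x) - M 0)) +
        ∫ w : Eu 4, (M (cnt ρ (s - ‖w‖ ^ 2) p x) - M 0)) :=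
    (a2.sub (b2.const_mul 2)).add c2
  have key : ∀ x : Eu d, 2 * v4 * ε ^ 2 * (M (cnt ρ s p x) - M 0) ≤
      ((∫ w : Eu 4, (M (cnt ρ (s + 2 * ε - ‖w‖ ^ 2) p x) - M 0)) -
        2 * (∫ w : Eu 4, (M (cnt ρ (s + ε - ‖w‖ ^ 2) p x) - M 0)) +
        ∫ w : Eu 4, (M (cnt ρ (s - ‖w‖ ^ 2) p x) - M 0)) ∧
      ((∫ w : Eu 4, (M (cnt ρ (s + 2 * ε - ‖w‖ ^ 2) p x) - M 0)) -
        2 * (∫ w : Eu 4, (M (cnt ρ (s + ε - ‖w‖ ^ 2) p x) - M 0)) +
        ∫ w : Eu 4, (M (cnt ρ (s - ‖w‖ ^ 2) p x) - M 0)) ≤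
      2 * v4 * ε ^ 2 * (M (cnt ρ (s + 2 * ε) p x) - M 0) := by
    intro x
    set F : ℝ → ℝ := fun t => M (cnt ρ t p x) - M 0 with hF
    have hFm : Monotone F := fun t t' h => by
      simp only [hF]
      have : (cnt ρ t p x : ℝ) ≤ cnt ρ t' p x := by exact_mod_cast lift_cnt_mono ρ h p x
      linarith [hMm this]
    have hF0 : ∀ t, 0 ≤ F t := fun t => by
      simp only [hF]
      have : (0 : ℝ) ≤ cnt ρ t p x := by positivity
      linarith [hMm this]
    have hFT : ∀ t < -∑ l, |pw ρ l (p, x)|, F t = 0 := by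
      intro t ht
      have h0 : cnt ρ t p x = 0 := by
        refine lift_cnt_zero ρ t p x fun l => ?_
        have h1 : |pw ρ l (p, x)| ≤ ∑ l, |pw ρ l (p, x)| :=
          Finset.single_le_sum (f := fun l => |pw ρ l (p, x)|) (fun _ _ => abs_nonneg _)
            (Finset.mem_univ l)
        have h2 := neg_abs_le (pw ρ l (p, x))
        linarith
      simp only [hF, h0]
      simp
    obtain ⟨k1, k2⟩ := lift_tent hFm hF0 hFT (s := s) hε
    have e1 := lift_radial F (s + 2 * ε)
    have e2 := lift_radial F (s + ε)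
    have e3 := lift_radial F s
    simp only [hF] at e1 e2 e3 k1 k2
    rw [e1, e2, e3]
    have hv := v4_pos
    constructor
    · nlinarith
    · nlinarith
  have i1 : Integrable fun x : Eu d => M (cnt ρ s p x) - M 0 := lift_int M hMc ρ s p
  have i2 : Integrable fun x : Eu d => M (cnt ρ (s + 2 * ε) p x) - M 0 :=
    lift_int M hMc ρ (s + 2 * ε) p
  rw [hD]
  constructor
  · unfold U
    rw [← integral_const_mul]
    exact integral_mono (i1.const_mul _) hDi fun x => (key x).1
  · unfold U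
    rw [← integral_const_mul]
    exact integral_mono hDi (i2.const_mul _) fun x => (key x).2

end Pool.Agent.H59.KPO
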